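import Pool.Agent.H12.FO.Blq

/-!
PROJECT FO, MidU: the bad primes `2 ^ (J / d) ≤ q < 2 ^ (J - J / d)`, uniform in `d`.

Blocks `2^a ≤ q < 2^(a+1)`: blq with L = J²+3, U = 2^(min(a, J-a)/k).  The trivial bound 2^J if J < A d log J.
∑_(a ≤ J/2) (1/a) a^(-1/2) ≤ 4/√t, ∑_(a > J/2) (2/J) (J-a)^(-1/2) ≤ (2/J) 2 √J, t = J/d.
-/

set_option autoImplicit false

namespace Pool.Agent.H80.FO

open Finset
open Pool.Agent.H37.PPC (pr mem_pr)
open Pool.Agent.H12.FO Pool.Agent.H12.FO.BlqP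

private theorem MU_div (J m : ℕ) (hm : 1 ≤ m) (hJ : m ≤ J) :
    (J : ℝ) / (2 * m) ≤ ((J / m : ℕ) : ℝ) := by
  have hmR : (1 : ℝ) ≤ m := by exact_mod_cast hm
  rw [div_le_iff₀ (by positivity)]
  have h6 : J ≤ (J / m) * (2 * m) := by
    have h7 : J < (J / m + 1) * m := by
      rw [mul_comm]
      exact Nat.lt_mul_div_succ _ (by omega)
    have h8 : 1 ≤ J / m := (Nat.le_div_iff_mul_le (by omega)).2 (by omega)
    nlinarith
  exact_mod_cast h6

private theorem MU_triv (J : ℕ) (Q : ℕ → ℕ → Prop) : Cnt (2 ^ J) Q ≤ 2 ^ J := by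
  classical
  unfold Cnt
  have h1 : ((Ico 2 (2 ^ J)).filter (fun n => ∃ q, Q n q)).card ≤ 2 ^ J := by
    refine (card_filter_le _ _).trans ?_
    rw [Nat.card_Ico]
    exact Nat.sub_le _ _
  exact_mod_cast h1

/-- sum of `a^(-3/2)` -/
private theorem MU_tail (t : ℕ) (ht : 1 ≤ t) (k : ℕ) :
    ∑ a ∈ Ico t (t + k), 1 / ((a : ℝ) * Real.sqrt a) ≤
      4 / Real.sqrt t - 4 / Real.sqrt ((t + k : ℕ) : ℝ) := by
  induction k with
  | zero => simp
  | succ k ih =>
    rw [← add_assoc, sum_Ico_succ_top (by omega)]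
    obtain ⟨m, hm⟩ : ∃ m, m = t + k := ⟨_, rfl⟩
    rw [← hm] at ih ⊢
    have hm1 : 1 ≤ m := by omega
    have hmr : (1 : ℝ) ≤ m := by exact_mod_cast hm1
    have hm0 : (0 : ℝ) < m := by linarith
    obtain ⟨a, ha⟩ : ∃ a, a = Real.sqrt m := ⟨_, rfl⟩
    obtain ⟨c, hc⟩ : ∃ c, c = Real.sqrt ((m + 1 : ℕ) : ℝ) := ⟨_, rfl⟩
    have ha1 : 1 ≤ a := by
      rw [ha, Real.one_le_sqrt]
      exact hmr
    have ha2 : a ^ 2 = m := by rw [ha]; exact Real.sq_sqrt hm0.le
    have hc2 : c ^ 2 = m + 1 := by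
      rw [hc, Real.sq_sqrt (by positivity)]
      push_cast
      ring
    have hac : a ≤ c := by
      rw [ha, hc]
      exact Real.sqrt_le_sqrt (by push_cast; linarith)
    rw [← hc, ← ha]
    rw [← ha] at ih
    have key : 1 / ((m : ℝ) * a) ≤ 4 / a - 4 / c := by
      have ha0 : 0 < a := by linarith
      have hc0 : 0 < c := by linarith
      have h1 : (c - a) * (c + a) = 1 := by nlinarith
      have e2 : 4 / a - 4 / c = 4 * (c - a) / (a * c) := by field_simp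
      have e3 : (m : ℝ) * a = a ^ 3 := by rw [← ha2]; ring
      rw [e2, e3, div_le_div_iff₀ (by positivity) (by positivity)]
      have h2 : c + a ≤ 2 * c := by linarith
      have h3 : c ^ 2 ≤ 2 * a ^ 2 := by nlinarith
      have h4 : 1 ≤ (c - a) * (2 * c) := by
        have : 0 ≤ c - a := by linarith
        nlinarith
      have h5 : a * c * c ≤ 4 * (c - a) * a ^ 3 * c := by
        calc a * c * c = a * c ^ 2 * 1 := by ring
          _ ≤ a * (2 * a ^ 2) * ((c - a) * (2 * c)) := by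
            apply mul_le_mul (mul_le_mul_of_nonneg_left h3 ha0.le) h4 zero_le_one (by positivity)
          _ = 4 * (c - a) * a ^ 3 * c := by ring
      have h6 : a * c ≤ 4 * (c - a) * a ^ 3 := le_of_mul_le_mul_right h5 hc0
      linarith
    linarith

/-- sum of `i^(-1/2)` -/
private theorem MU_head (k : ℕ) : ∑ i ∈ Ico 1 (1 + k), 1 / Real.sqrt i ≤ 2 * Real.sqrt k := by
  induction k with
  | zero => simp
  | succ k ih =>
    rw [← add_assoc, sum_Ico_succ_top (by omega)]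
    obtain ⟨a, ha⟩ : ∃ a, a = Real.sqrt k := ⟨_, rfl⟩
    obtain ⟨c, hc⟩ : ∃ c, c = Real.sqrt ((k + 1 : ℕ) : ℝ) := ⟨_, rfl⟩
    have ha0 : 0 ≤ a := by rw [ha]; exact Real.sqrt_nonneg _
    have ha2 : a ^ 2 = k := by rw [ha]; exact Real.sq_sqrt (Nat.cast_nonneg k)
    have hc1 : 1 ≤ c := by
      rw [hc, Real.one_le_sqrt]
      push_cast
      linarith [(Nat.cast_nonneg k : (0 : ℝ) ≤ k)]
    have hc2 : c ^ 2 = k + 1 := by
      rw [hc, Real.sq_sqrt (by positivity)]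
      push_cast
      ring
    have hac : a ≤ c := by
      rw [ha, hc]
      exact Real.sqrt_le_sqrt (by push_cast; linarith)
    rw [add_comm 1 k, ← hc]
    rw [← ha] at ih
    have key : 1 / c ≤ 2 * c - 2 * a := by
      rw [div_le_iff₀ (by linarith)]
      nlinarith
    rw [add_comm 1 k] at ih
    linarith

/-- reindexing of the upper half -/
private theorem MU_up (J : ℕ) (hJ : 3 ≤ J) :
    ∑ a ∈ Ico (J / 2) J, 1 / ((a : ℝ) * Real.sqrt ((J - a : ℕ) : ℝ)) ≤ 8 / Real.sqrt J := by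
  have hJR : (3 : ℝ) ≤ J := by exact_mod_cast hJ
  have hJ0 : (0 : ℝ) < J := by linarith
  have h1 : ∀ a ∈ Ico (J / 2) J, 1 / ((a : ℝ) * Real.sqrt ((J - a : ℕ) : ℝ)) ≤
      4 / J * (1 / Real.sqrt ((J - a : ℕ) : ℝ)) := by
    intro a ha
    rw [mem_Ico] at ha
    have h2 : (J : ℝ) / 4 ≤ a := by
      have h3 : J ≤ 4 * a := by omega
      rw [div_le_iff₀ (by norm_num)]
      have h4 : (J : ℝ) ≤ 4 * a := by exact_mod_cast h3
      linarith
    have h3 : 0 < Real.sqrt ((J - a : ℕ) : ℝ) := by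
      apply Real.sqrt_pos.2
      exact_mod_cast (by omega : 0 < J - a)
    have h4 : (1 : ℝ) / a ≤ 4 / J := by
      have h5 := one_div_le_one_div_of_le (by positivity) h2
      rwa [one_div_div] at h5
    calc 1 / ((a : ℝ) * Real.sqrt ((J - a : ℕ) : ℝ)) =
          1 / (a : ℝ) * (1 / Real.sqrt ((J - a : ℕ) : ℝ)) := by
          rw [one_div_mul_one_div]
      _ ≤ _ := mul_le_mul_of_nonneg_right h4 (by positivity)
  refine (sum_le_sum h1).trans ?_
  rw [← mul_sum]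
  have h2 : ∑ a ∈ Ico (J / 2) J, 1 / Real.sqrt ((J - a : ℕ) : ℝ) ≤
      ∑ i ∈ Ico 1 (1 + J), 1 / Real.sqrt i := by
    have h3 : ∑ a ∈ Ico (J / 2) J, 1 / Real.sqrt ((J - a : ℕ) : ℝ) =
        ∑ i ∈ (Ico (J / 2) J).image (fun a => J - a), 1 / Real.sqrt (i : ℝ) := by
      rw [sum_image]
      intro a ha b hb hab
      have ha' := mem_Ico.1 (mem_coe.1 ha)
      have hb' := mem_Ico.1 (mem_coe.1 hb)
      simp only at hab
      omega
    rw [h3]
    apply sum_le_sum_of_subset_of_nonneg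
    · intro i hi
      rw [mem_image] at hi
      obtain ⟨a, ha, rfl⟩ := hi
      rw [mem_Ico] at ha ⊢
      omega
    · intro i _ _
      positivity
  have h3 := MU_head J
  have hs : Real.sqrt J ^ 2 = J := Real.sq_sqrt hJ0.le
  have hs0 : 0 < Real.sqrt J := Real.sqrt_pos.2 hJ0
  calc 4 / (J : ℝ) * ∑ a ∈ Ico (J / 2) J, 1 / Real.sqrt ((J - a : ℕ) : ℝ)
      ≤ 4 / J * (2 * Real.sqrt J) := mul_le_mul_of_nonneg_left (h2.trans h3) (by positivity)
    _ = 8 / Real.sqrt J := by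
      rw [div_mul_eq_mul_div, div_eq_div_iff hJ0.ne' hs0.ne']
      nlinarith

theorem mid_u : ∃ C : ℝ, 0 < C ∧ ∀ J d : ℕ, 1 ≤ d → d ≤ J → 3 ≤ J →
    Cnt (2 ^ J) (fun n q => 2 ^ (J / d) ≤ q ∧ q < 2 ^ (J - J / d) ∧ BadP n q) ≤
      C * 2 ^ J * Real.sqrt (d * Real.log J / J) := by
  classical
  obtain ⟨C, hC, k, hk, hb⟩ := blq
  have hkR : (4 : ℝ) ≤ k := by exact_mod_cast hk
  refine ⟨16 * k + C * (1 + 8 * Real.sqrt (12 * k) * 3), by positivity, ?_⟩
  intro J d hd hdJ hJ3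
  have hdR : (1 : ℝ) ≤ d := by exact_mod_cast hd
  have hJR : (3 : ℝ) ≤ J := by exact_mod_cast hJ3
  have hJ0 : (0 : ℝ) < J := by linarith
  obtain ⟨lJ, hlJ⟩ : ∃ lJ, lJ = Real.log J := ⟨_, rfl⟩
  have hlJ1 : 1 ≤ lJ := by
    rw [hlJ, Real.le_log_iff_exp_le hJ0]
    have := Real.exp_one_lt_d9
    linarith
  obtain ⟨W, hW⟩ : ∃ W, W = Real.sqrt (d * Real.log J / J) := ⟨_, rfl⟩
  have hW0 : 0 ≤ W := by rw [hW]; exact Real.sqrt_nonneg _
  rw [← hW]
  have h2J : (0 : ℝ) < 2 ^ J := by positivity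
  rcases lt_or_ge (J : ℝ) (256 * k ^ 2 * d * lJ) with hA | hA
  · -- trivial bound
    have h1 : 1 ≤ 16 * (k : ℝ) * W := by
      have h2 : 1 ≤ (16 * (k : ℝ) * W) ^ 2 := by
        rw [mul_pow, hW, Real.sq_sqrt (by rw [← hlJ]; positivity), ← hlJ]
        rw [← mul_div_assoc, le_div_iff₀ hJ0]
        nlinarith
      nlinarith [mul_nonneg (mul_nonneg (by norm_num : (0 : ℝ) ≤ 16) (by linarith : (0 : ℝ) ≤ k)) hW0]
    refine (MU_triv J _).trans ?_
    have h3 : 0 ≤ C * (1 + 8 * Real.sqrt (12 * k) * 3) * W := by positivity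
    calc (2 : ℝ) ^ J = 2 ^ J * 1 := (mul_one _).symm
      _ ≤ 2 ^ J * (16 * (k : ℝ) * W + C * (1 + 8 * Real.sqrt (12 * k) * 3) * W) :=
        mul_le_mul_of_nonneg_left (by linarith) h2J.le
      _ = _ := by ring
  -- the main case
  obtain ⟨t, ht⟩ : ∃ t, t = J / d := ⟨_, rfl⟩
  obtain ⟨L, hL⟩ : ∃ L, L = J ^ 2 + 3 := ⟨_, rfl⟩
  have ht1 : 1 ≤ t := by rw [ht]; exact (Nat.le_div_iff_mul_le (by omega)).2 (by omega)
  have htR : (J : ℝ) / (2 * d) ≤ t := by rw [ht]; exact MU_div J d hd hdJ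
  have htR1 : (1 : ℝ) ≤ t := by exact_mod_cast ht1
  have hdW : 1 / Real.sqrt t ≤ 2 * Real.sqrt (d / J) := by
    have h1 : (0 : ℝ) < t := by linarith
    have h2 : (1 : ℝ) / t ≤ 2 * (d / J) := by
      have h3 := one_div_le_one_div_of_le (by positivity) htR
      rw [one_div_div] at h3
      calc (1 : ℝ) / t ≤ 2 * d / J := h3
        _ = 2 * (d / J) := by ring
    rw [one_div, ← Real.sqrt_inv, ← one_div]
    calc Real.sqrt (1 / (t : ℝ)) ≤ Real.sqrt (2 ^ 2 * (d / J)) := by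
          apply Real.sqrt_le_sqrt
          have : (0 : ℝ) ≤ d / J := by positivity
          linarith
      _ = 2 * Real.sqrt (d / J) := by
        rw [Real.sqrt_mul (by positivity), Real.sqrt_sq (by norm_num)]
  have hWe : Real.sqrt (d / J) * Real.sqrt lJ = W := by
    rw [hW, ← Real.sqrt_mul (by positivity), hlJ]
    congr 1
    ring
  have hlL : Real.log (L : ℝ) ≤ 3 * lJ := by
    have h2 : J ^ 2 + 3 ≤ J ^ 3 := by nlinarith [sq_nonneg J]
    rw [hL, hlJ]
    calc Real.log ((J ^ 2 + 3 : ℕ) : ℝ) ≤ Real.log ((J : ℝ) ^ 3) := by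
          apply Real.log_le_log
          · positivity
          · exact_mod_cast h2
      _ = 3 * Real.log J := by rw [Real.log_pow]; norm_num
  have hL3 : 3 ≤ L := by omega
  have hLR : (3 : ℝ) ≤ (L : ℝ) := by exact_mod_cast hL3
  have h1 : Cnt (2 ^ J) (fun n q => 2 ^ t ≤ q ∧ q < 2 ^ (J - t) ∧ BadP n q) ≤
      ∑ a ∈ Ico t (J - t), Cnt (2 ^ J) (fun n q => 2 ^ a ≤ q ∧ q < 2 ^ (a + 1) ∧ BadP n q) := by
    apply Cnt_sum (2 ^ J) _ _ (fun a n q => 2 ^ a ≤ q ∧ q < 2 ^ (a + 1) ∧ BadP n q)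
    intro n q _ _ hq
    have hq0 : q ≠ 0 := hq.2.2.1.ne_zero
    refine ⟨Nat.log 2 q, mem_Ico.2 ⟨Nat.le_log_of_pow_le one_lt_two hq.1,
      Nat.log_lt_of_lt_pow hq0 hq.2.1⟩, Nat.pow_log_le_self 2 hq0,
      Nat.lt_pow_succ_log_self one_lt_two q, hq.2.2⟩
  have h2 : ∀ a ∈ Ico t (J - t),
      Cnt (2 ^ J) (fun n q => 2 ^ a ≤ q ∧ q < 2 ^ (a + 1) ∧ BadP n q) ≤
        C * 2 ^ J * (1 / J ^ 2 + Real.sqrt (12 * k) * Real.sqrt lJ *
          (1 / (a : ℝ) * (1 / Real.sqrt ((min a (J - a) : ℕ) : ℝ)))) := by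
    intro a ha
    rw [mem_Ico] at ha
    obtain ⟨i, hi⟩ : ∃ i, i = min a (J - a) := ⟨_, rfl⟩
    have hti : t ≤ i := by rw [hi]; exact le_min ha.1 (by omega)
    have hia : i ≤ a := by rw [hi]; exact min_le_left _ _
    have hiJ : i ≤ J - a := by rw [hi]; exact min_le_right _ _
    have hi0 : (0 : ℝ) < i := by
      have : 0 < i := by omega
      exact_mod_cast this
    have htiR : (t : ℝ) ≤ i := by exact_mod_cast hti
    have hki : (128 * k ^ 2 * lJ : ℝ) ≤ i := by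
      have h3 : (128 * k ^ 2 * lJ : ℝ) ≤ J / (2 * d) := by
        rw [le_div_iff₀ (by positivity)]
        calc (128 * k ^ 2 * lJ : ℝ) * (2 * d) = 256 * k ^ 2 * d * lJ := by ring
          _ ≤ J := hA
      linarith
    have hki' : k ≤ i := by
      have h3 : (k : ℝ) ≤ i := by nlinarith
      exact_mod_cast h3
    obtain ⟨U, hU⟩ : ∃ U, U = 2 ^ (i / k) := ⟨_, rfl⟩
    have hdiv := MU_div i k (by omega) hki'
    have hlU : (i : ℝ) / (4 * k) ≤ Real.log (U : ℝ) := by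
      rw [hU, Nat.cast_pow, Real.log_pow]
      have h6 : (1 / 2 : ℝ) ≤ Real.log ((2 : ℕ) : ℝ) := by
        have := Real.log_two_gt_d9
        push_cast
        linarith
      calc (i : ℝ) / (4 * k) = (i : ℝ) / (2 * k) * (1 / 2) := by
            field_simp
            norm_num
        _ ≤ ((i / k : ℕ) : ℝ) * Real.log ((2 : ℕ) : ℝ) :=
            mul_le_mul hdiv h6 (by norm_num) (by positivity)
    have hlU0 : 0 < Real.log (U : ℝ) := lt_of_lt_of_le (by positivity) hlU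
    have hLU : L ≤ U := by
      have h3 : Real.log (L : ℝ) ≤ Real.log (U : ℝ) := by
        refine hlL.trans (le_trans ?_ hlU)
        rw [le_div_iff₀ (by positivity)]
        nlinarith
      have h4 : (0 : ℝ) < U := by rw [hU]; positivity
      have h5 := (Real.log_le_log_iff (by linarith) h4).1 h3
      exact_mod_cast h5
    have hUk : U ^ k ≤ 2 ^ i := by
      rw [hU, ← pow_mul]
      apply Nat.pow_le_pow_right (by norm_num)
      exact Nat.div_mul_le_self _ _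
    have h3 := hb L U a (J - a) hL3 hLU
      (hUk.trans (Nat.pow_le_pow_right (by norm_num) hiJ))
      (hUk.trans (Nat.pow_le_pow_right (by norm_num) hia))
    rw [show a + (J - a) = J by omega] at h3
    refine h3.trans ?_
    apply mul_le_mul_of_nonneg_left _ (by positivity)
    have h4 : (1 : ℝ) / L ≤ 1 / J ^ 2 := by
      apply one_div_le_one_div_of_le (by positivity)
      rw [hL]
      push_cast
      linarith
    have h5 : Real.sqrt (Real.log L / Real.log U) ≤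
        Real.sqrt (12 * k) * Real.sqrt lJ * (1 / Real.sqrt i) := by
      have h6 : Real.log (L : ℝ) / Real.log U ≤ 12 * k * lJ / i := by
        calc Real.log (L : ℝ) / Real.log U ≤ (3 * lJ) / ((i : ℝ) / (4 * k)) :=
              div_le_div₀ (by positivity) hlL (by positivity) hlU
          _ = 12 * k * lJ / i := by
            field_simp
            norm_num
      refine (Real.sqrt_le_sqrt h6).trans (le_of_eq ?_)
      rw [Real.sqrt_div (by positivity), Real.sqrt_mul (by positivity)]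
      ring
    have h6 : (0 : ℝ) ≤ 1 / (a : ℝ) := by positivity
    rw [← hi]
    calc 1 / (L : ℝ) + 1 / a * Real.sqrt (Real.log L / Real.log U)
        ≤ 1 / J ^ 2 + 1 / a * (Real.sqrt (12 * k) * Real.sqrt lJ * (1 / Real.sqrt i)) :=
          add_le_add h4 (mul_le_mul_of_nonneg_left h5 h6)
      _ = _ := by ring
  rw [← ht]
  refine h1.trans ((sum_le_sum h2).trans ?_)
  rw [← mul_sum, sum_add_distrib, sum_const, nsmul_eq_mul, Nat.card_Ico, ← mul_sum]
  -- the sum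
  have h3 : ∑ a ∈ Ico t (J - t), 1 / (a : ℝ) * (1 / Real.sqrt ((min a (J - a) : ℕ) : ℝ)) ≤
      ∑ a ∈ Ico t (t + J), 1 / ((a : ℝ) * Real.sqrt a) +
        ∑ a ∈ Ico (J / 2) J, 1 / ((a : ℝ) * Real.sqrt ((J - a : ℕ) : ℝ)) := by
    have h4 : ∀ a ∈ Ico t (J - t), 1 / (a : ℝ) * (1 / Real.sqrt ((min a (J - a) : ℕ) : ℝ)) =
        (if a ≤ J / 2 then 1 / ((a : ℝ) * Real.sqrt a) else 0) +
          (if ¬ a ≤ J / 2 then 1 / ((a : ℝ) * Real.sqrt ((J - a : ℕ) : ℝ)) else 0) := by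
      intro a ha
      rw [mem_Ico] at ha
      by_cases h5 : a ≤ J / 2
      · have h6 : min a (J - a) = a := min_eq_left (by omega)
        rw [if_pos h5, if_neg (not_not.2 h5), h6, one_div_mul_one_div, add_zero]
      · have h6 : min a (J - a) = J - a := min_eq_right (by omega)
        rw [if_neg h5, if_pos h5, zero_add, h6, one_div_mul_one_div]
    rw [sum_congr rfl h4, sum_add_distrib, ← sum_filter, ← sum_filter]
    apply add_le_add
    · apply sum_le_sum_of_subset_of_nonneg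
      · intro a ha
        rw [mem_filter, mem_Ico] at ha
        rw [mem_Ico]
        omega
      · intro a _ _
        positivity
    · apply sum_le_sum_of_subset_of_nonneg
      · intro a ha
        rw [mem_filter, mem_Ico] at ha
        rw [mem_Ico]
        omega
      · intro a _ _
        positivity
  have h4 := MU_tail t ht1 J
  have h5 := MU_up J hJ3
  have h6 : 0 ≤ 4 / Real.sqrt ((t + J : ℕ) : ℝ) := by positivity
  have h7 : 1 / Real.sqrt J ≤ Real.sqrt (d / J) := by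
    rw [one_div, ← Real.sqrt_inv, ← one_div]
    apply Real.sqrt_le_sqrt
    exact div_le_div_of_nonneg_right hdR hJ0.le
  have h8 : ∑ a ∈ Ico t (J - t), 1 / (a : ℝ) * (1 / Real.sqrt ((min a (J - a) : ℕ) : ℝ)) ≤
      16 * Real.sqrt (d / J) := by
    have h9 : 4 / Real.sqrt t = 4 * (1 / Real.sqrt t) := by ring
    have h10 : 8 / Real.sqrt J = 8 * (1 / Real.sqrt J) := by ring
    rw [h9] at h4
    rw [h10] at h5
    linarith
  have h9 : ((J - t - t : ℕ) : ℝ) * (1 / (J : ℝ) ^ 2) ≤ W := by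
    have h10 : ((J - t - t : ℕ) : ℝ) ≤ J := by exact_mod_cast (by omega : J - t - t ≤ J)
    have h11 : ((J - t - t : ℕ) : ℝ) * (1 / (J : ℝ) ^ 2) ≤ 1 / J := by
      calc ((J - t - t : ℕ) : ℝ) * (1 / (J : ℝ) ^ 2) ≤ J * (1 / (J : ℝ) ^ 2) :=
            mul_le_mul_of_nonneg_right h10 (by positivity)
        _ = 1 / J := by field_simp
    refine h11.trans ?_
    rw [hW, ← hlJ]
    apply Real.le_sqrt_of_sq_le
    rw [div_pow, one_pow, div_le_div_iff₀ (by positivity) hJ0]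
    have h12 : 1 ≤ d * lJ := one_le_mul_of_one_le_of_one_le hdR hlJ1
    have h13 : (J : ℝ) ≤ J ^ 2 := by nlinarith
    calc (1 : ℝ) * J ≤ 1 * J ^ 2 := mul_le_mul_of_nonneg_left h13 zero_le_one
      _ ≤ d * lJ * J ^ 2 := mul_le_mul_of_nonneg_right h12 (by positivity)
  have h10 : Real.sqrt (12 * k) * Real.sqrt lJ *
      ∑ a ∈ Ico t (J - t), 1 / (a : ℝ) * (1 / Real.sqrt ((min a (J - a) : ℕ) : ℝ)) ≤
      Real.sqrt (12 * k) * (16 * W) := by
    calc Real.sqrt (12 * k) * Real.sqrt lJ *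
          ∑ a ∈ Ico t (J - t), 1 / (a : ℝ) * (1 / Real.sqrt ((min a (J - a) : ℕ) : ℝ))
        ≤ Real.sqrt (12 * k) * Real.sqrt lJ * (16 * Real.sqrt (d / J)) :=
          mul_le_mul_of_nonneg_left h8 (by positivity)
      _ = Real.sqrt (12 * k) * (16 * W) := by rw [← hWe]; ring
  have h11 : 0 ≤ Real.sqrt (12 * k) * W := mul_nonneg (Real.sqrt_nonneg _) hW0
  have h12 : ((J - t - t : ℕ) : ℝ) * (1 / (J : ℝ) ^ 2) + Real.sqrt (12 * k) * Real.sqrt lJ *
      ∑ a ∈ Ico t (J - t), 1 / (a : ℝ) * (1 / Real.sqrt ((min a (J - a) : ℕ) : ℝ)) ≤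
      (1 + 8 * Real.sqrt (12 * k) * 3) * W := by
    have h13 : (1 + 8 * Real.sqrt (12 * k) * 3) * W = W + 24 * (Real.sqrt (12 * k) * W) := by ring
    rw [h13]
    linarith
  have h14 : 0 ≤ 16 * (k : ℝ) * 2 ^ J * W := by positivity
  calc C * 2 ^ J * (((J - t - t : ℕ) : ℝ) * (1 / (J : ℝ) ^ 2) + Real.sqrt (12 * k) * Real.sqrt lJ *
      ∑ a ∈ Ico t (J - t), 1 / (a : ℝ) * (1 / Real.sqrt ((min a (J - a) : ℕ) : ℝ)))
      ≤ C * 2 ^ J * ((1 + 8 * Real.sqrt (12 * k) * 3) * W) :=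
        mul_le_mul_of_nonneg_left h12 (by positivity)
    _ ≤ (16 * k + C * (1 + 8 * Real.sqrt (12 * k) * 3)) * 2 ^ J * W := by
        have h15 : (16 * k + C * (1 + 8 * Real.sqrt (12 * k) * 3)) * 2 ^ J * W =
          16 * (k : ℝ) * 2 ^ J * W + C * 2 ^ J * ((1 + 8 * Real.sqrt (12 * k) * 3) * W) := by ring
        rw [h15]
        linarith

end Pool.Agent.H80.FO
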